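import Pool.Agent.V8H57.ON.Defs

/-! Expansions to the base of a monic polynomial. -/

set_option autoImplicit false

namespace Pool.Agent.V8H57.ON

open Polynomial Finset

section base
variable {R : Type} [CommRing R]

theorem sum_coeff_lt {d : ℕ} {P : R[X]} (h : P.natDegree < d) :
    P = ∑ i ∈ range d, X ^ i * C (P.coeff i) := by
  conv_lhs => rw [P.as_sum_range' d h]
  refine Finset.sum_congr rfl fun i _ => ?_
  rw [← C_mul_X_pow_eq_monomial, mul_comm]

theorem comp_divX (H g : R[X]) : H.comp g = C (H.coeff 0) + g * (divX H).comp g := by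
  conv_lhs => rw [← divX_mul_X_add H]
  rw [add_comp, mul_comp, X_comp, C_comp]
  ring

/-- the expansion is unique -/
theorem expand_zero [Nontrivial R] {g : R[X]} (hg : g.Monic) : ∀ (n : ℕ) (H : ℕ → R[X]),
    (∀ i, (H i).natDegree ≤ n) →
    ∑ i ∈ range g.natDegree, X ^ i * (H i).comp g = 0 → ∀ i < g.natDegree, H i = 0 := by
  have key : ∀ (H : ℕ → R[X]), ∑ i ∈ range g.natDegree, X ^ i * (H i).comp g = 0 →
      (∀ i < g.natDegree, (H i).coeff 0 = 0) ∧
        ∑ i ∈ range g.natDegree, X ^ i * (divX (H i)).comp g = 0 := by
    intro H h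
    set r : R[X] := ∑ i ∈ range g.natDegree, X ^ i * C ((H i).coeff 0) with hr
    set q : R[X] := ∑ i ∈ range g.natDegree, X ^ i * (divX (H i)).comp g with hq
    have h1 : r + g * q = 0 := by
      rw [← h, hr, hq, Finset.mul_sum, ← Finset.sum_add_distrib]
      refine Finset.sum_congr rfl fun i _ => ?_
      rw [comp_divX (H i) g]
      ring
    have hc : ∀ i, r.coeff i = if i < g.natDegree then (H i).coeff 0 else 0 := by
      intro i
      rw [hr, finsetSum_coeff]
      simp only [coeff_X_pow_mul', coeff_C]
      by_cases hi : i < g.natDegree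
      · rw [if_pos hi, Finset.sum_eq_single i]
        · simp
        · intro j _ hj
          by_cases hji : j ≤ i
          · rw [if_pos hji, if_neg (by omega)]
          · rw [if_neg hji]
        · intro hni
          exact absurd (Finset.mem_range.2 hi) hni
      · rw [if_neg hi]
        refine Finset.sum_eq_zero fun j hj => ?_
        have := Finset.mem_range.1 hj
        rw [if_pos (by omega), if_neg (by omega)]
    have hdeg : r.degree < g.degree := by
      rw [degree_eq_natDegree hg.ne_zero, degree_lt_iff_coeff_zero]
      intro m hm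
      rw [hc, if_neg (by omega)]
    have h2 := div_modByMonic_unique q r hg ⟨h1, hdeg⟩
    rw [zero_divByMonic, zero_modByMonic] at h2
    refine ⟨fun i hi => ?_, h2.1.symm⟩
    have h3 := hc i
    rw [if_pos hi, ← h2.2, coeff_zero] at h3
    exact h3.symm
  intro n
  induction n with
  | zero =>
    intro H hH h i hi
    obtain ⟨h1, _⟩ := key H h
    have h2 := eq_C_of_natDegree_le_zero (hH i)
    rw [h2, h1 i hi, C_0]
  | succ n ih =>
    intro H hH h i hi
    obtain ⟨h1, h2⟩ := key H h
    have h3 := ih (fun i => divX (H i)) (fun i => by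
      rw [natDegree_divX_eq_natDegree_tsub_one]
      have := hH i
      omega) h2 i hi
    have h4 := divX_mul_X_add (H i)
    rw [← h4]
    simp only [h3, h1 i hi, zero_mul, C_0, add_zero]

/-- the expansion exists -/
theorem exists_expand {g : R[X]} (hg : g.Monic) (hd : 1 ≤ g.natDegree) : ∀ (n : ℕ) (P : R[X]),
    P.natDegree ≤ n → ∃ H : ℕ → R[X], (∀ i, (H i).natDegree ≤ P.natDegree) ∧
      P = ∑ i ∈ range g.natDegree, X ^ i * (H i).comp g := by
  intro n
  induction n using Nat.strong_induction_on with
  | _ n ih =>
    intro P hP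
    by_cases hlt : P.natDegree < g.natDegree
    · refine ⟨fun i => C (P.coeff i), fun i => by simp, ?_⟩
      simp only [C_comp]
      exact sum_coeff_lt hlt
    · push Not at hlt
      have hnt : Nontrivial R := by
        by_contra hcon
        rw [not_nontrivial_iff_subsingleton] at hcon
        have : g = 0 := Subsingleton.elim _ _
        rw [this] at hd
        simp at hd
      have h1 := modByMonic_add_div P g
      have h2 : (P /ₘ g).natDegree = P.natDegree - g.natDegree := natDegree_divByMonic P hg
      obtain ⟨H, hH1, hH2⟩ := ih (P.natDegree - g.natDegree) (by omega) (P /ₘ g) (by rw [h2])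
      have h3 : (P %ₘ g).natDegree < g.natDegree := natDegree_modByMonic_lt P hg (by
        rintro rfl
        simp at hd)
      refine ⟨fun i => C ((P %ₘ g).coeff i) + X * H i, fun i => ?_, ?_⟩
      · refine (natDegree_add_le _ _).trans (max_le (by simp) ?_)
        refine natDegree_mul_le.trans ?_
        have h4 := hH1 i
        rw [h2] at h4
        have h5 : (X : R[X]).natDegree = 1 := natDegree_X
        omega
      · conv_lhs => rw [← h1, hH2, sum_coeff_lt h3, Finset.mul_sum, ← Finset.sum_add_distrib]
        refine Finset.sum_congr rfl fun i _ => ?_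
        rw [add_comp, mul_comp, X_comp, C_comp]
        ring

end base

end Pool.Agent.V8H57.ON
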