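import Pool.Agent.V8H57.ON.Main

/-! The sizes of the sets of states. -/

set_option autoImplicit false

namespace Pool.Agent.V8H57.ON

open Polynomial Finset

variable {K : Type} [Field K] {w : ℕ}

theorem natDegree_prod_le {p : State K w} {A : Matrix (Fin w) (Fin w) K[X][X]} {c D : ℕ}
    (hp : ∀ a, (p a).natDegree ≤ c) (hA : ∀ a b, (A a b).natDegree ≤ D) (b : Fin w) :
    (prod p A b).natDegree ≤ c + D := by
  unfold prod
  refine natDegree_sum_le_of_forall_le _ _ fun a _ => ?_
  refine natDegree_mul_le.trans ?_
  have h1 : ((p a).map (C : K →+* K[X])).natDegree ≤ (p a).natDegree := natDegree_map_le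
  have h2 := hp a
  have h3 := hA a b
  omega

theorem natDegree_slice_le (m : ℕ) (P : K[X][X]) : (slice m P).natDegree ≤ P.natDegree := by
  rw [natDegree_le_iff_coeff_eq_zero]
  intro j hj
  rw [slice_coeff, coeff_eq_zero_of_natDegree_lt hj, coeff_zero]

/-- digits have small degrees -/
theorem digits_deg {S : Set (State K w)} {s : Step K w} (hs : s.Good) {c D : ℕ}
    (hS : ∀ p ∈ S, ∀ a, (p a).natDegree ≤ c) (hD : s.DegLE D) :
    ∀ q ∈ digits S s, ∀ a, (q a).natDegree ≤ c + D := by
  cases s with
  | update A g =>
    obtain ⟨hg, hd⟩ := hs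
    rintro q ⟨p, hp, H, hH, i, hi, m, rfl⟩ b
    refine (natDegree_slice_le m _).trans ?_
    obtain ⟨H', h1, h2⟩ := exists_digits hg hd p A
    have h3 : H b i = H' b i := by
      set n : ℕ := (range g.natDegree).sup (fun i => (H b i - H' b i).natDegree) with hn
      set H'' : ℕ → K[X][X] := fun i => if i < g.natDegree then H b i - H' b i else 0 with hH''
      have h4 := expand_zero hg n H'' (fun i => by
        by_cases hi : i < g.natDegree
        · simp only [hH'', if_pos hi]
          exact Finset.le_sup (f := fun i => (H b i - H' b i).natDegree) (Finset.mem_range.2 hi)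
        · simp only [hH'', if_neg hi]; simp) (by
        have h5 := hH b
        have h6 := h2 b
        unfold Expand at h5 h6
        have h7 : ∑ i ∈ range g.natDegree, X ^ i * (H'' i).comp g =
            ∑ i ∈ range g.natDegree, X ^ i * (H b i).comp g -
              ∑ i ∈ range g.natDegree, X ^ i * (H' b i).comp g := by
          rw [← Finset.sum_sub_distrib]
          refine Finset.sum_congr rfl fun i hi => ?_
          simp only [hH'', if_pos (Finset.mem_range.1 hi), sub_comp]
          ring
        rw [h7, ← h5, ← h6, sub_self]) i hi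
      simp only [hH'', if_pos hi] at h4
      exact sub_eq_zero.1 h4
    simp only [h3]
    exact (h1 b i).trans (natDegree_prod_le (hS p hp) hD b)
  | reset A =>
    rintro q ⟨p, hp, j, rfl⟩ b
    simp only
    unfold prod
    rw [finsetSum_coeff]
    refine natDegree_sum_le_of_forall_le _ _ fun a _ => ?_
    rw [coeff_mul]
    refine natDegree_sum_le_of_forall_le _ _ fun x _ => ?_
    rw [coeff_map]
    refine natDegree_mul_le.trans ?_
    have h2 := hD a b x.2
    rw [natDegree_C]
    omega

/-- all states of degree at most `c` -/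
noncomputable def para (K : Type) [Field K] (w c : ℕ) :
    (Fin w × Fin (c + 1) → K) →ₗ[K] State K w where
  toFun f a := ∑ j : Fin (c + 1), monomial j.val (f (a, j))
  map_add' f g := by
    funext a
    simp only [Pi.add_apply, map_add, Finset.sum_add_distrib]
  map_smul' r f := by
    funext a
    simp only [Pi.smul_apply, RingHom.id_apply, Finset.smul_sum]
    refine Finset.sum_congr rfl fun j _ => ?_
    rw [smul_monomial]

theorem mem_para {c : ℕ} {p : State K w} (hp : ∀ a, (p a).natDegree ≤ c) :
    p ∈ LinearMap.range (para K w c) := by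
  refine ⟨fun aj => (p aj.1).coeff aj.2.val, ?_⟩
  funext a
  show ∑ j : Fin (c + 1), monomial j.val ((p a).coeff j.val) = p a
  rw [Fin.sum_univ_eq_sum_range (fun j => monomial j ((p a).coeff j)) (c + 1)]
  exact ((p a).as_sum_range' (c + 1) (Nat.lt_succ_of_le (hp a))).symm

/-- a small spanning subset -/
theorem exists_small {c : ℕ} (S : Set (State K w)) (hS : ∀ p ∈ S, ∀ a, (p a).natDegree ≤ c) :
    ∃ S' ⊆ S, Submodule.span K S' = Submodule.span K S ∧ S'.Finite ∧ S'.ncard ≤ w * (c + 1) := by
  obtain ⟨S', h1, h2, h3⟩ := exists_linearIndependent K S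
  have hmem : ∀ x : S', x.1 ∈ LinearMap.range (para K w c) := fun x => mem_para (hS _ (h1 x.2))
  set f : S' → LinearMap.range (para K w c) := fun x => ⟨x.1, hmem x⟩ with hf
  have hli : LinearIndependent K f := by
    apply LinearIndependent.of_comp (LinearMap.range (para K w c)).subtype
    exact h3
  have hfin : Finite S' := hli.finite
  have hcard : Nat.card S' ≤ w * (c + 1) := by
    have hft : Fintype S' := Fintype.ofFinite S'
    rw [Nat.card_eq_fintype_card]
    refine hli.fintype_card_le_finrank.trans ?_
    refine (LinearMap.finrank_range_le _).trans ?_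
    rw [Module.finrank_fintype_fun_eq_card, Fintype.card_prod, Fintype.card_fin, Fintype.card_fin]
  exact ⟨S', h1, h2, Set.toFinite S', by rw [← Nat.card_coe_set_eq]; exact hcard⟩

/-- small tests exist -/
theorem exists_test {D N : ℕ} : ∀ (L : List (Step K w)) (c : ℕ) (S : Set (State K w)),
    (∀ s ∈ L, s.Good) → (∀ s ∈ L, s.DegLE D) → (∀ p ∈ S, ∀ a, (p a).natDegree ≤ c) →
    w * (c + L.length * D + 1) ≤ N → ∃ T, Test N S L T := by
  intro L
  induction L with
  | nil => intro c S _ _ _ _; exact ⟨S, Test.nil S⟩
  | cons s L ih =>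
    intro c S hg hD hS hN
    have h1 := digits_deg (hg s (by simp)) hS (hD s (by simp))
    obtain ⟨S', h2, h3, h4, h5⟩ := exists_small (digits S s) h1
    rw [List.length_cons] at hN
    have e1 : c + (L.length + 1) * D + 1 = c + D + L.length * D + 1 := by ring
    rw [e1] at hN
    obtain ⟨T, hT⟩ := ih (c + D) S' (fun s' hs' => hg s' (by simp [hs']))
      (fun s' hs' => hD s' (by simp [hs'])) (fun p hp => h1 p (h2 hp)) hN
    refine ⟨T, Test.cons h2 h3 h4 (h5.trans (le_trans ?_ hN)) hT⟩
    apply Nat.mul_le_mul_left
    omega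

end Pool.Agent.V8H57.ON
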