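import Mathlib

/-!
# Straight-line programs with one nonlinear register

A program has a nonlinear register `r`, linear registers `s_1, …, s_w`, and in every step a new
variable `x`. In every step the vector of the linear registers is multiplied by a matrix whose
entries are polynomials in `r` and `x`, and `r` gets the new value `g(r, x)`, where `g` is monic in
`r`, or the new value `x`.

Polynomials in `r` and `x` are elements of `K[X][X]`; the outer variable is `r`, the inner one `x`.
-/

set_option autoImplicit false

namespace Pool.Agent.V8H57.ON

open Polynomial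

/-- A step of a program: `update A g` multiplies the vector of the linear registers by the matrix
`A(r, x)` and replaces `r` by `g(r, x)`; `reset A` multiplies it by `A(r, x)` and replaces `r` by
`x`. Here `x` is the new variable of the step. -/
inductive Step (K : Type) [Field K] (w : ℕ) : Type
  /-- multiply by `A(r, x)` and replace `r` by `g(r, x)` -/
  | update (A : Matrix (Fin w) (Fin w) K[X][X]) (g : K[X][X]) : Step K w
  /-- multiply by `A(r, x)` and replace `r` by `x` -/
  | reset (A : Matrix (Fin w) (Fin w) K[X][X]) : Step K w

variable {K : Type} [Field K] {w : ℕ}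

/-- The polynomial `g` of a step `update A g` is monic in `r`, of degree at least 1 in `r`. -/
def Step.Good : Step K w → Prop
  | .update _ g => g.Monic ∧ 1 ≤ g.natDegree
  | .reset _ => True

/-- A bound for the degrees of a step: the degree in `r` of the entries of the matrix of a step
`update A g` is at most `D`; the degree in `x` of the entries of the matrix of a step `reset A` is
at most `D`. -/
def Step.DegLE (D : ℕ) : Step K w → Prop
  | .update A _ => ∀ a b, (A a b).natDegree ≤ D
  | .reset A => ∀ a b j, ((A a b).coeff j).natDegree ≤ D

/-- The value of the polynomial `P(r, x)` if `r` has the value `ρ` and `x` has the value `y`. -/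
noncomputable def ev {B : Type} [CommRing B] [Algebra K B] (ρ y : B) (P : K[X][X]) : B :=
  P.eval₂ ((aeval y : K[X] →ₐ[K] B) : K[X] →+* B) ρ

/-- `A_0(r_0, x_0) A_1(r_1, x_1) ⋯ v`, where `r_0 = ρ` and `r_1, r_2, …` are the values of the
nonlinear register after the steps. -/
noncomputable def run {B : Type} [CommRing B] [Algebra K B] (v : Fin w → K) :
    List (Step K w) → B → (ℕ → B) → Fin w → B
  | [], _, _ => fun a => algebraMap K B (v a)
  | .update A g :: L, ρ, x => fun a =>
      ∑ b, ev ρ (x 0) (A a b) * run v L (ev ρ (x 0) g) (fun j => x (j + 1)) b
  | .reset A :: L, ρ, x => fun a =>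
      ∑ b, ev ρ (x 0) (A a b) * run v L (x 0) (fun j => x (j + 1)) b

/-- The polynomial `u A_0(r_0, x_1) A_1(r_1, x_2) ⋯ v` in the variables `x_0, x_1, …` computed by
the program, where `r_0 = x_0` and `x_{l+1}` is the new variable of the `l`-th step. -/
noncomputable def value (u : Fin w → K) (L : List (Step K w)) (v : Fin w → K) :
    MvPolynomial ℕ K :=
  ∑ a, MvPolynomial.C (u a) * run v L (MvPolynomial.X 0) (fun j => MvPolynomial.X (j + 1)) a

/-- A state of the test: a vector of polynomials in `r`. -/
abbrev State (K : Type) [Field K] (w : ℕ) : Type := Fin w → K[X]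

/-- The product of the state `p(r)` and the matrix `A(r, x)`. -/
noncomputable def prod (p : State K w) (A : Matrix (Fin w) (Fin w) K[X][X]) (b : Fin w) :
    K[X][X] := ∑ a, (p a).map C * A a b

/-- The coefficient of `x ^ m` of `P(r, x)`, a polynomial in `r`. -/
noncomputable def slice (m : ℕ) (P : K[X][X]) : K[X] :=
  ∑ j ∈ Finset.range (P.natDegree + 1), monomial j ((P.coeff j).coeff m)

/-- The expansion `P(r, x) = ∑_{i < d} r ^ i H_i(g(r, x), x)`, where `d` is the degree of `g` in
`r`. -/
def Expand (g P : K[X][X]) (H : ℕ → K[X][X]) : Prop :=
  P = ∑ i ∈ Finset.range g.natDegree, X ^ i * (H i).comp g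

/-- The digits of the states in `S` for a step. For `update A g` they are the coefficients of the
`x ^ m` in the polynomials `H_i(r, x)`, `i < d`, in the expansions of `p(r) A(r, x)` to the base
`g`. For `reset A` they are the coefficients of the `r ^ j` in `p(r) A(r, x)`, polynomials in `x`. -/
def digits (S : Set (State K w)) : Step K w → Set (State K w)
  | .update A g => {q | ∃ p ∈ S, ∃ H : Fin w → ℕ → K[X][X],
      (∀ b, Expand g (prod p A b) (H b)) ∧ ∃ i < g.natDegree, ∃ m, q = fun b => slice m (H b i)}
  | .reset A => {q | ∃ p ∈ S, ∃ j, q = fun b => (prod p A b).coeff j}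

/-- A run of the test on the list `L` of steps which starts with the set `S` of states and ends
with the set `T`: in every step a set of at most `N` digits is chosen that spans the same space as
all digits. -/
inductive Test (N : ℕ) : Set (State K w) → List (Step K w) → Set (State K w) → Prop
  | nil (S : Set (State K w)) : Test N S [] S
  | cons {S S' T : Set (State K w)} {s : Step K w} {L : List (Step K w)}
      (sub : S' ⊆ digits S s)
      (span : Submodule.span K S' = Submodule.span K (digits S s))
      (fin : S'.Finite) (card : S'.ncard ≤ N) (tail : Test N S' L T) : Test N S (s :: L) T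

end Pool.Agent.V8H57.ON
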