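import Pool.Agent.V8H57.ON.Base

/-! Evaluation, and independence of the digit monomials. -/

set_option autoImplicit false

namespace Pool.Agent.V8H57.ON

open Polynomial Finset

variable {K : Type} [Field K] {w : ℕ}

section ev
variable {B B' : Type} [CommRing B] [Algebra K B] [CommRing B'] [Algebra K B']

/-- `ev` as a ring homomorphism -/
noncomputable def evh (ρ y : B) : K[X][X] →+* B :=
  eval₂RingHom ((aeval y : K[X] →ₐ[K] B) : K[X] →+* B) ρ

theorem ev_eq (ρ y : B) (P : K[X][X]) : ev ρ y P = evh ρ y P := rfl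

theorem evh_X (ρ y : B) : evh ρ y (X : K[X][X]) = ρ := by
  simp [evh]

theorem evh_C (ρ y : B) (p : K[X]) : evh ρ y (C p) = aeval y p := by
  simp [evh]

theorem evh_map (ρ y : B) (p : K[X]) : evh ρ y (p.map C) = aeval ρ p := by
  unfold evh
  rw [coe_eval₂RingHom, eval₂_map, aeval_def]
  congr 1
  ext a
  simp

theorem evh_comp (ρ y : B) (P g : K[X][X]) : evh ρ y (P.comp g) = evh (evh ρ y g) y P := by
  unfold evh
  rw [coe_eval₂RingHom, coe_eval₂RingHom, eval₂_comp]

theorem hom_ev (φ : B →ₐ[K] B') (ρ y : B) (P : K[X][X]) : φ (ev ρ y P) = ev (φ ρ) (φ y) P := by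
  unfold ev
  rw [show φ (P.eval₂ ((aeval y : K[X] →ₐ[K] B) : K[X] →+* B) ρ) =
    (φ : B →+* B') (P.eval₂ ((aeval y : K[X] →ₐ[K] B) : K[X] →+* B) ρ) from rfl, hom_eval₂]
  congr 1
  ext a
  · simp
  · simp

theorem hom_run (φ : B →ₐ[K] B') (v : Fin w → K) : ∀ (L : List (Step K w)) (ρ : B) (x : ℕ → B)
    (a : Fin w), φ (run v L ρ x a) = run v L (φ ρ) (fun j => φ (x j)) a := by
  intro L
  induction L with
  | nil => intro ρ x a; simp [run]
  | cons s L ih =>
    intro ρ x a
    cases s with
    | update A g =>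
      simp only [run, map_sum, map_mul, ih, hom_ev]
    | reset A =>
      simp only [run, map_sum, map_mul, ih, hom_ev]

end ev

theorem slice_coeff (m : ℕ) (P : K[X][X]) (j : ℕ) :
    (slice m P).coeff j = (P.coeff j).coeff m := by
  unfold slice
  rw [finsetSum_coeff]
  simp only [coeff_monomial]
  by_cases hj : j ≤ P.natDegree
  · rw [Finset.sum_eq_single j]
    · simp
    · intro i _ hi
      rw [if_neg hi]
    · intro hn
      exact absurd (Finset.mem_range.2 (by omega)) hn
  · have h0 : P.coeff j = 0 := coeff_eq_zero_of_natDegree_lt (by omega)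
    rw [h0, coeff_zero]
    refine Finset.sum_eq_zero fun i hi => ?_
    have := Finset.mem_range.1 hi
    rw [if_neg (by omega)]

/-- a bound for the degrees in `x` -/
noncomputable def xdeg (P : K[X][X]) : ℕ :=
  (Finset.range (P.natDegree + 1)).sup (fun j => (P.coeff j).natDegree) + 1

theorem coeff_lt_xdeg (P : K[X][X]) (j : ℕ) : (P.coeff j).natDegree < xdeg P := by
  unfold xdeg
  by_cases hj : j ≤ P.natDegree
  · have := Finset.le_sup (f := fun j => (P.coeff j).natDegree)
      (Finset.mem_range.2 (show j < P.natDegree + 1 by omega))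
    omega
  · rw [coeff_eq_zero_of_natDegree_lt (by omega)]
    simp

theorem slice_sum (P : K[X][X]) {M : ℕ} (hM : xdeg P ≤ M) :
    P = ∑ m ∈ range M, C (X ^ m) * (slice m P).map C := by
  ext j n
  rw [finsetSum_coeff]
  simp only [coeff_C_mul, coeff_map, slice_coeff]
  rw [finsetSum_coeff]
  simp only [coeff_mul_C, coeff_X_pow]
  by_cases hn : n < M
  · rw [Finset.sum_eq_single n]
    · simp
    · intro m _ hm
      rw [if_neg (Ne.symm hm), zero_mul]
    · intro h
      exact absurd (Finset.mem_range.2 hn) h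
  · rw [coeff_eq_zero_of_natDegree_lt (by have := coeff_lt_xdeg P j; omega)]
    symm
    refine Finset.sum_eq_zero fun m hm => ?_
    have := Finset.mem_range.1 hm
    rw [if_neg (by omega), zero_mul]

section theta

/-- shift of the variables: `x_0` goes to `ρ` and `x_{j+1}` to `x_{j+2}` -/
noncomputable def theta (ρ : MvPolynomial ℕ K) : MvPolynomial ℕ K →ₐ[K] MvPolynomial ℕ K :=
  MvPolynomial.aeval (fun j => match j with
    | 0 => ρ
    | j + 1 => MvPolynomial.X (j + 2))

theorem theta_zero (ρ : MvPolynomial ℕ K) : theta ρ (MvPolynomial.X 0) = ρ := by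
  simp [theta]

theorem theta_succ (ρ : MvPolynomial ℕ K) (j : ℕ) :
    theta ρ (MvPolynomial.X (j + 1)) = MvPolynomial.X (j + 2) := by
  simp [theta]

/-- `x_0` as the variable, the others as coefficients -/
noncomputable def gam : MvPolynomial ℕ K →ₐ[K] (MvPolynomial ℕ K)[X] :=
  MvPolynomial.aeval (fun j => match j with
    | 0 => X
    | j + 1 => C (MvPolynomial.X j))

theorem gam_zero : gam (K := K) (MvPolynomial.X 0) = X := by
  simp [gam]

theorem gam_succ (j : ℕ) : gam (K := K) (MvPolynomial.X (j + 1)) = C (MvPolynomial.X j) := by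
  simp [gam]

theorem gam_inj : Function.Injective (gam (K := K)) := by
  set del : (MvPolynomial ℕ K)[X] →+* MvPolynomial ℕ K :=
    eval₂RingHom ((MvPolynomial.rename (fun j : ℕ => j + 1) : MvPolynomial ℕ K →ₐ[K]
      MvPolynomial ℕ K) : MvPolynomial ℕ K →+* MvPolynomial ℕ K) (MvPolynomial.X 0) with hdel
  have h : del.comp (gam (K := K) : MvPolynomial ℕ K →+* (MvPolynomial ℕ K)[X]) =
      RingHom.id _ := by
    apply MvPolynomial.ringHom_ext
    · intro a
      simp [hdel, gam]
    · intro j
      cases j with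
      | zero =>
        simp only [RingHom.comp_apply, RingHom.coe_coe, gam_zero, RingHom.id_apply]
        simp [hdel]
      | succ j =>
        simp only [RingHom.comp_apply, RingHom.coe_coe, gam_succ, RingHom.id_apply]
        simp [hdel]
  intro a b hab
  have h1 := congrArg del hab
  have h2 : ∀ c, del (gam c) = c := fun c => by
    have := congrArg (fun f => f c) h
    simpa using this
  rwa [h2, h2] at h1

/-- `x_0` as the outer variable, `x_1` as the inner variable, the others as coefficients -/
noncomputable def bet : MvPolynomial ℕ K →ₐ[K] (MvPolynomial ℕ K)[X][X] :=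
  MvPolynomial.aeval (fun j => match j with
    | 0 => X
    | 1 => C X
    | j + 2 => C (C (MvPolynomial.X j)))

theorem bet_zero : bet (K := K) (MvPolynomial.X 0) = X := by simp [bet]

theorem bet_one : bet (K := K) (MvPolynomial.X 1) = C X := by simp [bet]

theorem bet_succ (j : ℕ) : bet (K := K) (MvPolynomial.X (j + 2)) = C (C (MvPolynomial.X j)) := by
  simp [bet]

/-- the polynomial `g` with coefficients in the bigger ring -/
noncomputable def hat (g : K[X][X]) : (MvPolynomial ℕ K)[X][X] :=
  g.map (mapRingHom (MvPolynomial.C : K →+* MvPolynomial ℕ K))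

theorem hat_monic {g : K[X][X]} (hg : g.Monic) : (hat g).Monic := hg.map _

theorem hat_natDegree {g : K[X][X]} (hg : g.Monic) : (hat g).natDegree = g.natDegree :=
  hg.natDegree_map _

theorem bet_ev (g : K[X][X]) :
    bet (ev (MvPolynomial.X 0 : MvPolynomial ℕ K) (MvPolynomial.X 1) g) = hat g := by
  have h0 := hom_ev (B := MvPolynomial ℕ K) (B' := (MvPolynomial ℕ K)[X][X]) bet
    (MvPolynomial.X 0) (MvPolynomial.X 1) g
  rw [h0, bet_zero, bet_one]
  unfold ev hat
  have h : ((aeval (C X : (MvPolynomial ℕ K)[X][X]) : K[X] →ₐ[K] (MvPolynomial ℕ K)[X][X]) :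
      K[X] →+* (MvPolynomial ℕ K)[X][X]) = (C : (MvPolynomial ℕ K)[X] →+*
        (MvPolynomial ℕ K)[X][X]).comp (mapRingHom (MvPolynomial.C : K →+* MvPolynomial ℕ K)) := by
    ext a
    · simp [Polynomial.algebraMap_apply, MvPolynomial.algebraMap_eq]
    · simp
  rw [h, ← eval₂_map, eval₂_C_X]

theorem bet_theta (g : K[X][X]) (G : MvPolynomial ℕ K) :
    bet (theta (ev (MvPolynomial.X 0) (MvPolynomial.X 1) g) G) =
      ((gam G).map (C : MvPolynomial ℕ K →+* (MvPolynomial ℕ K)[X])).comp (hat g) := by
  set f1 : MvPolynomial ℕ K →+* (MvPolynomial ℕ K)[X][X] :=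
    ((bet (K := K)).comp (theta (ev (MvPolynomial.X 0) (MvPolynomial.X 1) g)) :
      MvPolynomial ℕ K →+* (MvPolynomial ℕ K)[X][X]) with hf1
  set f2 : MvPolynomial ℕ K →+* (MvPolynomial ℕ K)[X][X] :=
    (compRingHom (hat g)).comp ((mapRingHom (C : MvPolynomial ℕ K →+*
      (MvPolynomial ℕ K)[X])).comp (gam (K := K) : MvPolynomial ℕ K →+* (MvPolynomial ℕ K)[X]))
    with hf2
  have h : f1 = f2 := by
    apply MvPolynomial.ringHom_ext
    · intro a
      simp only [hf1, hf2, RingHom.comp_apply, RingHom.coe_coe, AlgHom.comp_apply]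
      rw [show (MvPolynomial.C a : MvPolynomial ℕ K) = algebraMap K _ a from rfl]
      simp only [AlgHom.commutes]
      simp [Polynomial.algebraMap_apply, MvPolynomial.algebraMap_eq]
    · intro j
      simp only [hf1, hf2, RingHom.comp_apply, RingHom.coe_coe, AlgHom.comp_apply]
      cases j with
      | zero => rw [theta_zero, bet_ev, gam_zero]; simp
      | succ j => rw [theta_succ, bet_succ, gam_succ]; simp
  exact congrArg (fun f => f G) h

/-- independence, for a step `update A g` -/
theorem indep_update {g : K[X][X]} (hg : g.Monic) (M : ℕ) (G : ℕ → ℕ → MvPolynomial ℕ K)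
    (h : ∑ i ∈ range g.natDegree, ∑ m ∈ range M, MvPolynomial.X 0 ^ i * MvPolynomial.X 1 ^ m *
      theta (ev (MvPolynomial.X 0) (MvPolynomial.X 1) g) (G i m) = 0) :
    ∀ i < g.natDegree, ∀ m < M, G i m = 0 := by
  have h1 := congrArg (bet (K := K)) h
  simp only [map_sum, map_mul, map_pow, bet_zero, bet_one, bet_theta, map_zero] at h1
  set H : ℕ → (MvPolynomial ℕ K)[X][X] := fun i =>
    ∑ m ∈ range M, C (X ^ m) * (gam (G i m)).map C with hH
  have h2 : ∑ i ∈ range (hat g).natDegree, X ^ i * (H i).comp (hat g) = 0 := by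
    rw [hat_natDegree hg, ← h1]
    refine Finset.sum_congr rfl fun i _ => ?_
    have h3 : (H i).comp (hat g) = ∑ m ∈ range M, C (X ^ m) * ((gam (G i m)).map C).comp (hat g) := by
      rw [hH, ← coe_compRingHom_apply, map_sum]
      refine Finset.sum_congr rfl fun m _ => ?_
      rw [coe_compRingHom_apply, mul_comp, C_comp]
    rw [h3, Finset.mul_sum]
    refine Finset.sum_congr rfl fun m _ => ?_
    rw [C_pow, mul_assoc]
  obtain ⟨n, hn⟩ : ∃ n, ∀ i < g.natDegree, (H i).natDegree ≤ n := by
    refine ⟨(range g.natDegree).sup (fun i => (H i).natDegree), fun i hi => ?_⟩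
    exact Finset.le_sup (f := fun i => (H i).natDegree) (Finset.mem_range.2 hi)
  set H' : ℕ → (MvPolynomial ℕ K)[X][X] := fun i => if i < g.natDegree then H i else 0 with hH'
  have h5 := expand_zero (hat_monic hg) n H' (fun i => by
    by_cases hi : i < g.natDegree
    · simp only [hH', if_pos hi]; exact hn i hi
    · simp only [hH', if_neg hi]; simp) (by
    rw [← h2]
    refine Finset.sum_congr rfl fun i hi => ?_
    have := Finset.mem_range.1 hi
    rw [hat_natDegree hg] at this
    simp only [hH', if_pos this])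
  intro i hi m hm
  have h6 : H i = 0 := by
    have := h5 i (by rw [hat_natDegree hg]; exact hi)
    simpa only [hH', if_pos hi] using this
  apply gam_inj
  rw [map_zero]
  ext1 j
  have h7 := congrArg (fun P => (P.coeff j).coeff m) h6
  simp only [hH, finsetSum_coeff, coeff_C_mul, coeff_map, coeff_mul_C, coeff_X_pow, coeff_zero]
    at h7
  rw [Finset.sum_eq_single m] at h7
  · simpa using h7
  · intro m' _ hm'
    rw [if_neg (Ne.symm hm'), zero_mul]
  · intro hn
    exact absurd (Finset.mem_range.2 hm) hn

/-- independence, for a step `reset A` -/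
theorem indep_reset (M : ℕ) (G : ℕ → MvPolynomial ℕ K)
    (h : ∑ j ∈ range M, MvPolynomial.X 0 ^ j * theta (MvPolynomial.X 1) (G j) = 0) :
    ∀ j < M, G j = 0 := by
  have hgt : ∀ G : MvPolynomial ℕ K, gam (theta (MvPolynomial.X 1) G) = C G := by
    intro G
    have h : ((gam (K := K)).comp (theta (MvPolynomial.X 1)) :
        MvPolynomial ℕ K →+* (MvPolynomial ℕ K)[X]) = C := by
      apply MvPolynomial.ringHom_ext
      · intro a
        simp only [RingHom.coe_coe, AlgHom.comp_apply]
        rw [show (MvPolynomial.C a : MvPolynomial ℕ K) = algebraMap K _ a from rfl]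
        simp only [AlgHom.commutes]
        simp [Polynomial.algebraMap_apply, MvPolynomial.algebraMap_eq]
      · intro j
        simp only [RingHom.coe_coe, AlgHom.comp_apply]
        cases j with
        | zero => rw [theta_zero]; exact gam_succ 0
        | succ j => rw [theta_succ]; exact gam_succ (j + 1)
    exact congrArg (fun f => f G) h
  have h1 := congrArg (gam (K := K)) h
  simp only [map_sum, map_mul, map_pow, gam_zero, hgt, map_zero] at h1
  intro j hj
  have h2 := congrArg (fun P => P.coeff j) h1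
  simp only [finsetSum_coeff, coeff_mul_C, coeff_X_pow, coeff_zero] at h2
  rw [Finset.sum_eq_single j] at h2
  · simpa using h2
  · intro i _ hi
    rw [if_neg (Ne.symm hi), zero_mul]
  · intro hn
    exact absurd (Finset.mem_range.2 hj) hn

end theta

end Pool.Agent.V8H57.ON
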