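import Pool.Agent.V8H57.ON.Indep

/-! The test is correct. -/

set_option autoImplicit false

namespace Pool.Agent.V8H57.ON

open Polynomial Finset

variable {K : Type} [Field K] {w : ℕ}

/-- the value of the rest of the program at a state -/
noncomputable def Phi (v : Fin w → K) (L : List (Step K w)) (p : State K w) : MvPolynomial ℕ K :=
  ∑ b, aeval (MvPolynomial.X 0 : MvPolynomial ℕ K) (p b) *
    run v L (MvPolynomial.X 0) (fun j => MvPolynomial.X (j + 1)) b

theorem value_eq (u : Fin w → K) (L : List (Step K w)) (v : Fin w → K) :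
    value u L v = Phi v L (fun a => C (u a)) := by
  unfold value Phi
  refine Finset.sum_congr rfl fun a _ => ?_
  rw [aeval_C]
  rfl

theorem Phi_add (v : Fin w → K) (L : List (Step K w)) (p q : State K w) :
    Phi v L (p + q) = Phi v L p + Phi v L q := by
  unfold Phi
  rw [← Finset.sum_add_distrib]
  refine Finset.sum_congr rfl fun a _ => ?_
  rw [Pi.add_apply, map_add, add_mul]

theorem Phi_smul (v : Fin w → K) (L : List (Step K w)) (c : K) (p : State K w) :
    Phi v L (c • p) = c • Phi v L p := by
  unfold Phi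
  rw [Finset.smul_sum]
  refine Finset.sum_congr rfl fun a _ => ?_
  rw [Pi.smul_apply, map_smul, smul_mul_assoc]

theorem Phi_zero (v : Fin w → K) (L : List (Step K w)) : Phi v L 0 = 0 := by
  unfold Phi
  simp

theorem Phi_span {v : Fin w → K} {L : List (Step K w)} {S : Set (State K w)}
    (h : ∀ q ∈ S, Phi v L q = 0) : ∀ q ∈ Submodule.span K S, Phi v L q = 0 := by
  intro q hq
  induction hq using Submodule.span_induction with
  | mem x hx => exact h x hx
  | zero => exact Phi_zero v L
  | add x y _ _ hx hy => rw [Phi_add, hx, hy, add_zero]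
  | smul c x _ hx => rw [Phi_smul, hx, smul_zero]

/-- the shift of the rest of the program -/
theorem run_theta (v : Fin w → K) (L : List (Step K w)) (ρ : MvPolynomial ℕ K) (b : Fin w) :
    run v L ρ (fun j => MvPolynomial.X (j + 1 + 1)) b =
      theta ρ (run v L (MvPolynomial.X 0) (fun j => MvPolynomial.X (j + 1)) b) := by
  rw [hom_run (theta ρ), theta_zero]
  simp only [theta_succ]

theorem theta_aeval (ρ : MvPolynomial ℕ K) (p : K[X]) :
    theta ρ (aeval (MvPolynomial.X 0 : MvPolynomial ℕ K) p) = aeval ρ p := by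
  rw [← Polynomial.aeval_algHom_apply, theta_zero]

theorem evh_prod (p : State K w) (A : Matrix (Fin w) (Fin w) K[X][X]) (b : Fin w)
    (ρ y : MvPolynomial ℕ K) :
    ∑ a, aeval ρ (p a) * ev ρ y (A a b) = evh ρ y (prod p A b) := by
  unfold prod
  rw [map_sum]
  refine Finset.sum_congr rfl fun a _ => ?_
  rw [map_mul, evh_map, ev_eq]

theorem Phi_cons_aux (R : Fin w → MvPolynomial ℕ K) (p : State K w)
    (A : Matrix (Fin w) (Fin w) K[X][X]) (ρ y : MvPolynomial ℕ K) :
    ∑ a, aeval ρ (p a) * ∑ b, ev ρ y (A a b) * R b = ∑ b, evh ρ y (prod p A b) * R b := by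
  simp only [Finset.mul_sum]
  rw [Finset.sum_comm]
  refine Finset.sum_congr rfl fun b _ => ?_
  rw [← evh_prod, Finset.sum_mul]
  refine Finset.sum_congr rfl fun a _ => ?_
  ring

theorem Phi_update (v : Fin w → K) (L : List (Step K w)) (A : Matrix (Fin w) (Fin w) K[X][X])
    (g : K[X][X]) (p : State K w) (H : Fin w → ℕ → K[X][X])
    (hH : ∀ b, Expand g (prod p A b) (H b)) (M : ℕ) (hM : ∀ b, ∀ i < g.natDegree,
      xdeg (H b i) ≤ M) :
    Phi v (.update A g :: L) p = ∑ i ∈ range g.natDegree, ∑ m ∈ range M,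
      MvPolynomial.X 0 ^ i * MvPolynomial.X 1 ^ m *
      theta (ev (MvPolynomial.X 0) (MvPolynomial.X 1) g) (Phi v L (fun b => slice m (H b i))) := by
  set ρ : MvPolynomial ℕ K := ev (MvPolynomial.X 0) (MvPolynomial.X 1) g with hρ
  have h1 : Phi v (.update A g :: L) p = ∑ b, evh (MvPolynomial.X 0 : MvPolynomial ℕ K)
      (MvPolynomial.X 1) (prod p A b) *
        theta ρ (run v L (MvPolynomial.X 0) (fun j => MvPolynomial.X (j + 1)) b) := by
    have h0 : ∀ a, run v (.update A g :: L) (MvPolynomial.X 0 : MvPolynomial ℕ K)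
        (fun j => MvPolynomial.X (j + 1)) a = ∑ b, ev (MvPolynomial.X 0) (MvPolynomial.X 1) (A a b) *
          run v L ρ (fun j => MvPolynomial.X (j + 1 + 1)) b := fun a => rfl
    unfold Phi
    simp only [h0, run_theta]
    exact Phi_cons_aux _ _ _ _ _
  rw [h1]
  have h2 : ∀ b, evh (MvPolynomial.X 0 : MvPolynomial ℕ K) (MvPolynomial.X 1) (prod p A b) =
      ∑ i ∈ range g.natDegree, ∑ m ∈ range M, MvPolynomial.X 0 ^ i * MvPolynomial.X 1 ^ m *
        theta ρ (aeval (MvPolynomial.X 0 : MvPolynomial ℕ K) (slice m (H b i))) := by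
    intro b
    have h3 := hH b
    unfold Expand at h3
    rw [h3, map_sum]
    refine Finset.sum_congr rfl fun i hi => ?_
    rw [map_mul, map_pow, evh_X, evh_comp]
    have h4 := slice_sum (H b i) (hM b i (Finset.mem_range.1 hi))
    rw [h4, map_sum, Finset.mul_sum]
    refine Finset.sum_congr rfl fun m _ => ?_
    rw [map_mul, evh_C, evh_map, theta_aeval, ← h4, map_pow, aeval_X, ← ev_eq, ← hρ]
    ring
  simp only [h2, Finset.sum_mul]
  rw [Finset.sum_comm]
  refine Finset.sum_congr rfl fun i _ => ?_
  rw [Finset.sum_comm]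
  refine Finset.sum_congr rfl fun m _ => ?_
  unfold Phi
  rw [map_sum, Finset.mul_sum]
  refine Finset.sum_congr rfl fun b _ => ?_
  rw [map_mul]
  ring

theorem Phi_reset (v : Fin w → K) (L : List (Step K w)) (A : Matrix (Fin w) (Fin w) K[X][X])
    (p : State K w) (M : ℕ) (hM : ∀ b, (prod p A b).natDegree < M) :
    Phi v (.reset A :: L) p = ∑ j ∈ range M, MvPolynomial.X 0 ^ j *
      theta (MvPolynomial.X 1) (Phi v L (fun b => (prod p A b).coeff j)) := by
  have h1 : Phi v (.reset A :: L) p = ∑ b, evh (MvPolynomial.X 0 : MvPolynomial ℕ K)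
      (MvPolynomial.X 1) (prod p A b) * theta (MvPolynomial.X 1)
        (run v L (MvPolynomial.X 0) (fun j => MvPolynomial.X (j + 1)) b) := by
    have h0 : ∀ a, run v (.reset A :: L) (MvPolynomial.X 0 : MvPolynomial ℕ K)
        (fun j => MvPolynomial.X (j + 1)) a = ∑ b, ev (MvPolynomial.X 0) (MvPolynomial.X 1) (A a b) *
          run v L (MvPolynomial.X 1) (fun j => MvPolynomial.X (j + 1 + 1)) b := fun a => rfl
    unfold Phi
    simp only [h0, run_theta]
    exact Phi_cons_aux _ _ _ _ _
  rw [h1]
  have h2 : ∀ b, evh (MvPolynomial.X 0 : MvPolynomial ℕ K) (MvPolynomial.X 1) (prod p A b) =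
      ∑ j ∈ range M, MvPolynomial.X 0 ^ j * theta (MvPolynomial.X 1)
        (aeval (MvPolynomial.X 0 : MvPolynomial ℕ K) ((prod p A b).coeff j)) := by
    intro b
    rw [sum_coeff_lt (hM b), map_sum]
    refine Finset.sum_congr rfl fun j hj => ?_
    rw [map_mul, map_pow, evh_X, evh_C, theta_aeval, ← sum_coeff_lt (hM b)]
  simp only [h2, Finset.sum_mul]
  rw [Finset.sum_comm]
  refine Finset.sum_congr rfl fun j _ => ?_
  unfold Phi
  rw [map_sum, Finset.mul_sum]
  refine Finset.sum_congr rfl fun b _ => ?_
  rw [map_mul]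
  ring

theorem exists_digits {g : K[X][X]} (hg : g.Monic) (hd : 1 ≤ g.natDegree) (p : State K w)
    (A : Matrix (Fin w) (Fin w) K[X][X]) : ∃ H : Fin w → ℕ → K[X][X],
      (∀ b i, (H b i).natDegree ≤ (prod p A b).natDegree) ∧
      ∀ b, Expand g (prod p A b) (H b) := by
  have h := fun b => exists_expand hg hd (prod p A b).natDegree (prod p A b) le_rfl
  choose H h1 h2 using h
  exact ⟨H, h1, h2⟩

/-- one step of the test -/
theorem step_iff (v : Fin w → K) (L : List (Step K w)) (s : Step K w) (hs : s.Good)
    (S : Set (State K w)) :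
    (∀ p ∈ S, Phi v (s :: L) p = 0) ↔ ∀ q ∈ digits S s, Phi v L q = 0 := by
  cases s with
  | update A g =>
    obtain ⟨hg, hd⟩ := hs
    constructor
    · intro h q hq
      obtain ⟨p, hp, H, hH, i, hi, m, rfl⟩ := hq
      set M : ℕ := (Finset.univ.sup fun b => (range g.natDegree).sup fun i => xdeg (H b i)) + m + 1
        with hM
      have h1 := h p hp
      rw [Phi_update v L A g p H hH M (fun b i hi => by
        have h2 := Finset.le_sup (f := fun i => xdeg (H b i)) (Finset.mem_range.2 hi)
        have h3 := Finset.le_sup (f := fun b => (range g.natDegree).sup fun i => xdeg (H b i))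
          (Finset.mem_univ b)
        have h4 := h2.trans h3
        refine h4.trans ?_
        rw [hM]
        omega)] at h1
      exact indep_update hg M _ h1 i hi m (by omega)
    · intro h p hp
      obtain ⟨H, _, hH⟩ := exists_digits hg hd p A
      set M : ℕ := (Finset.univ.sup fun b => (range g.natDegree).sup fun i => xdeg (H b i))
        with hM
      rw [Phi_update v L A g p H hH M (fun b i hi => by
        have h2 := Finset.le_sup (f := fun i => xdeg (H b i)) (Finset.mem_range.2 hi)
        have h3 := Finset.le_sup (f := fun b => (range g.natDegree).sup fun i => xdeg (H b i))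
          (Finset.mem_univ b)
        exact h2.trans h3)]
      refine Finset.sum_eq_zero fun i hi => Finset.sum_eq_zero fun m _ => ?_
      rw [h _ ⟨p, hp, H, hH, i, Finset.mem_range.1 hi, m, rfl⟩, map_zero, mul_zero]
  | reset A =>
    constructor
    · intro h q hq
      obtain ⟨p, hp, j, rfl⟩ := hq
      set M : ℕ := (Finset.univ.sup fun b => (prod p A b).natDegree) + j + 1 with hM
      have h1 := h p hp
      rw [Phi_reset v L A p M (fun b => by
        have h3 := Finset.le_sup (f := fun b => (prod p A b).natDegree) (Finset.mem_univ b)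
        refine lt_of_le_of_lt h3 ?_
        rw [hM]
        omega)] at h1
      exact indep_reset M _ h1 j (by omega)
    · intro h p hp
      set M : ℕ := (Finset.univ.sup fun b => (prod p A b).natDegree) + 1 with hM
      rw [Phi_reset v L A p M (fun b => by
        have h3 := Finset.le_sup (f := fun b => (prod p A b).natDegree) (Finset.mem_univ b)
        exact Nat.lt_succ_of_le h3)]
      refine Finset.sum_eq_zero fun j _ => ?_
      rw [h _ ⟨p, hp, j, rfl⟩, map_zero, mul_zero]

theorem Phi_nil (v : Fin w → K) (p : State K w) :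
    Phi v [] p = 0 ↔ ∑ a, p a * C (v a) = 0 := by
  have h1 : Phi v [] p = aeval (MvPolynomial.X 0 : MvPolynomial ℕ K) (∑ a, p a * C (v a)) := by
    unfold Phi run
    rw [map_sum]
    refine Finset.sum_congr rfl fun a _ => ?_
    rw [map_mul, aeval_C]
  have hinj : ∀ P : K[X], aeval (MvPolynomial.X 0 : MvPolynomial ℕ K) P = 0 → P = 0 := by
    intro P hP
    have h2 := congrArg (gam (K := K)) hP
    rw [map_zero, ← Polynomial.aeval_algHom_apply, gam_zero] at h2
    have h3 : aeval (X : (MvPolynomial ℕ K)[X]) P = P.map (MvPolynomial.C : K →+* _) := by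
      rw [aeval_def, Polynomial.map]
      congr 1
    rw [h3] at h2
    exact (Polynomial.map_eq_zero_iff (MvPolynomial.C_injective ℕ K)).1 h2
  rw [h1]
  constructor
  · exact hinj _
  · intro h
    rw [h, map_zero]

/-- the test is correct -/
theorem test_correct {N : ℕ} (v : Fin w → K) {L : List (Step K w)} {S T : Set (State K w)}
    (h : Test N S L T) (hL : ∀ s ∈ L, s.Good) :
    (∀ p ∈ S, Phi v L p = 0) ↔ ∀ q ∈ T, ∑ a, q a * C (v a) = 0 := by
  induction h with
  | nil S =>
    simp only [Phi_nil]
  | cons sub span fin card tail ih =>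
    rename_i S S' T s L
    rw [step_iff v L s (hL s (by simp)) S, ← ih (fun s' hs' => hL s' (by simp [hs']))]
    constructor
    · intro h1 q hq
      exact h1 q (sub hq)
    · intro h1 q hq
      apply Phi_span h1
      rw [span]
      exact Submodule.subset_span hq

end Pool.Agent.V8H57.ON
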